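import Pool.Agent.Helper15_SIQ.Stmts

/-!
# MP_021b97_an, Q1, modules TEX, TLZ: the current `T`
-/

set_option autoImplicit false

open MeasureTheory Filter Topology

namespace Pool.Agent.SIQ.H65

open Pool.Agent.SIU Pool.Agent.SIQ

theorem emp0 : IsEmpty (Fin (2 * 0)) := inferInstanceAs (IsEmpty (Fin 0))

theorem pt1_mem (t : ℝ) : pt1 t ∈ X1.U := by
  rw [mem_U1]
  intro i
  right
  fin_cases i <;> simp [pt1, hi]

theorem continuous_pt1 : Continuous pt1 := by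
  apply continuous_pi
  intro m
  fin_cases m
  · exact continuous_const
  · exact continuous_const
  · exact continuous_const
  · exact continuous_const
  · exact Complex.continuous_ofReal
  · exact continuous_const

/-- evaluation at the empty tuple -/
theorem eval_emp {a : Alt 6 (2 * 0)} (v w : Fin (2 * 0) → E6) : a v = a w := by
  have := emp0
  rw [Subsingleton.elim v w]

theorem continuous_val (β : X1.Form (2 * 0)) :
    Continuous fun t : ℝ => β.1 (pt1 t) (fun _ => 0) := by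
  have h1 : Continuous fun t : ℝ => β.1 (pt1 t) :=
    β.2.1.comp_continuous continuous_pt1 pt1_mem
  exact (ContinuousAlternatingMap.apply ℝ E6 ℝ (fun _ : Fin (2 * 0) => (0 : E6))).continuous.comp h1

theorem integrable_val (β : X1.Form (2 * 0)) :
    IntegrableOn (fun t : ℝ => β.1 (pt1 t) (fun _ => 0)) (Set.Icc 0 1) :=
  (continuous_val β).continuousOn.integrableOn_compact isCompact_Icc

/-- the current -/
noncomputable def TT : X1.Current 0 where
  toFun β := ∫ t in Set.Icc (0 : ℝ) 1, β.1 (pt1 t) (fun _ => 0)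
  map_add' β γ := by
    rw [← integral_add (integrable_val β) (integrable_val γ)]
    rfl
  map_smul' c β := by
    show ∫ t in Set.Icc (0 : ℝ) 1, c * β.1 (pt1 t) (fun _ => 0) = c * _
    rw [integral_const_mul]

theorem norm_val (a : Alt 6 (2 * 0)) (v : Fin (2 * 0) → E6) : |a v| ≤ ‖a‖ := by
  have := emp0
  have h := a.le_opNorm v
  rw [Finset.univ_eq_empty, Finset.prod_empty, mul_one] at h
  exact h

theorem spos0 {a : Alt 6 (2 * 0)} (h : SPos 0 a) (v : Fin (2 * 0) → E6) : 0 ≤ a v := by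
  have := emp0
  obtain ⟨m, c, L, hc, hb⟩ := h
  rw [hb v]
  apply Finset.sum_nonneg
  intro l _
  have h1 : ∀ M : Matrix (Fin (2 * 0)) (Fin (2 * 0)) ℝ, M.det = 1 := fun M => Matrix.det_isEmpty
  exact mul_nonneg (hc l) (zero_le_one.trans_eq (h1 _).symm)

theorem fpos0 (w : Bool) {a : Alt 6 (2 * 0)} (h : FPos w 0 a) (v : Fin (2 * 0) → E6) :
    0 ≤ a v := by
  unfold FPos at h
  by_cases hw : w = true
  · rw [if_pos hw] at h
    rw [eval_emp v (cvec (fun _ => 0) (2 * 0))]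
    exact h.1 _
  · rw [if_neg hw] at h
    exact spos0 h v

theorem tex : TexStmt := by
  refine ⟨TT, fun β => rfl, fun w => ⟨?_, ?_, ?_⟩⟩
  · intro u _ β β' h
    show ∫ t in Set.Icc (0 : ℝ) 1, β'.1 (pt1 t) (fun _ => 0) =
      ∫ t in Set.Icc (0 : ℝ) 1, β.1 (pt1 t) (fun _ => 0)
    congr 1
    funext t
    rw [h _ (pt1_mem t)]
    exact eval_emp _ _
  · refine ⟨pt1 '' Set.Icc 0 1, 1, isCompact_Icc.image continuous_pt1, ?_, ?_⟩
    · rintro z ⟨t, _, rfl⟩
      exact pt1_mem t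
    · intro β c hc
      have h1 : ∀ t ∈ Set.Icc (0 : ℝ) 1, ‖β.1 (pt1 t) (fun _ => 0)‖ ≤ c := fun t ht =>
        (norm_val _ _).trans (hc _ ⟨t, ht, rfl⟩)
      have h2 := norm_setIntegral_le_of_norm_le_const (μ := volume)
        (s := Set.Icc (0 : ℝ) 1) (by simp) h1
      have h3 : volume.real (Set.Icc (0 : ℝ) 1) = 1 := by
        rw [Real.volume_real_Icc]
        simp
      rw [h3, mul_one] at h2
      rw [one_mul]
      exact h2
  · intro β hβ
    apply integral_nonneg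
    intro t
    exact fpos0 _ (hβ _ (pt1_mem t)) _

theorem act_pt1 (c : C3) (t : ℝ) : X1.act c (pt1 t) = ![0, c 0, 0, c 1, c 2 * (t : ℂ), c 2] := by
  rw [act1_eq]
  funext m
  fin_cases m <;> simp [pt1]

theorem near {c : C3} {t ρ : ℝ} {u : E6} (ht : t ∈ Set.Icc (0 : ℝ) 1)
    (h : ‖X1.act c (pt1 t) - u‖ < ρ) : ‖u 4 - (t : ℂ) * u 5‖ < 2 * ρ := by
  rw [act_pt1] at h
  have h4 : ‖c 2 * (t : ℂ) - u 4‖ < ρ := lt_of_le_of_lt
    (norm_le_pi_norm ((![0, c 0, 0, c 1, c 2 * (t : ℂ), c 2] : E6) - u) 4) h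
  have h5 : ‖c 2 - u 5‖ < ρ := lt_of_le_of_lt
    (norm_le_pi_norm ((![0, c 0, 0, c 1, c 2 * (t : ℂ), c 2] : E6) - u) 5) h
  have e : u 4 - (t : ℂ) * u 5 = -(c 2 * (t : ℂ) - u 4) + (t : ℂ) * (c 2 - u 5) := by ring
  rw [e]
  have h6 : ‖(t : ℂ) * (c 2 - u 5)‖ ≤ ‖c 2 - u 5‖ := by
    rw [norm_mul, Complex.norm_real, Real.norm_of_nonneg ht.1]
    exact mul_le_of_le_one_left (norm_nonneg _) ht.2
  calc ‖-(c 2 * (t : ℂ) - u 4) + (t : ℂ) * (c 2 - u 5)‖
      ≤ ‖-(c 2 * (t : ℂ) - u 4)‖ + ‖(t : ℂ) * (c 2 - u 5)‖ := norm_add_le _ _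
    _ = ‖c 2 * (t : ℂ) - u 4‖ + ‖(t : ℂ) * (c 2 - u 5)‖ := by rw [norm_neg]
    _ < 2 * ρ := by linarith

theorem tlz : TlzStmt := by
  intro T hT u hu ε hε
  -- the radius
  obtain ⟨ρ₀, hρ₀, hbd⟩ : ∃ ρ₀ > 0, ∀ ρ : ℝ, 0 < ρ → ρ < ρ₀ → ∃ a b : ℝ, b - a ≤ ε ∧ a ≤ b ∧
      ∀ t ∈ Set.Icc (0 : ℝ) 1, ‖u 4 - (t : ℂ) * u 5‖ < 2 * ρ → t ∈ Set.Icc a b := by
    by_cases h5 : u 5 = 0
    · have h4 : u 4 ≠ 0 := by
        rcases (mem_U1 u).mp hu 2 with h | h
        · exact h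
        · exact absurd h5 h
      refine ⟨‖u 4‖ / 2, by have := norm_pos_iff.mpr h4; positivity, ?_⟩
      intro ρ _ hρ
      refine ⟨0, 0, by simpa using hε.le, le_rfl, ?_⟩
      intro t _ h
      rw [h5, mul_zero, sub_zero] at h
      exact absurd h (by linarith)
    · have hn : 0 < ‖u 5‖ := norm_pos_iff.mpr h5
      refine ⟨ε * ‖u 5‖ / 8, by positivity, ?_⟩
      intro ρ hρ0 hρ
      by_cases hex : ∃ t₀ ∈ Set.Icc (0 : ℝ) 1, ‖u 4 - (t₀ : ℂ) * u 5‖ < 2 * ρ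
      · obtain ⟨t₀, _, h0⟩ := hex
        refine ⟨t₀ - ε / 2, t₀ + ε / 2, by linarith, by linarith, ?_⟩
        intro t _ h
        have h1 : ‖((t - t₀ : ℝ) : ℂ) * u 5‖ < 4 * ρ := by
          have e : ((t - t₀ : ℝ) : ℂ) * u 5 =
              (u 4 - (t₀ : ℂ) * u 5) - (u 4 - (t : ℂ) * u 5) := by
            push_cast
            ring
          rw [e]
          calc _ ≤ ‖u 4 - (t₀ : ℂ) * u 5‖ + ‖u 4 - (t : ℂ) * u 5‖ := norm_sub_le _ _
            _ < 4 * ρ := by linarith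
        rw [norm_mul, Complex.norm_real, Real.norm_eq_abs] at h1
        have h2 : |t - t₀| * ‖u 5‖ < ε / 2 * ‖u 5‖ := by linarith
        have h3 := lt_of_mul_lt_mul_right h2 hn.le
        rw [abs_lt] at h3
        constructor <;> linarith
      · refine ⟨0, 0, by simpa using hε.le, le_rfl, ?_⟩
        intro t ht h
        exact absurd ⟨t, ht, h⟩ hex
  refine ⟨ρ₀, hρ₀, ?_⟩
  intro ρ hρ0 hρ h hh hsupp β hβ
  obtain ⟨a, b, hab, hab', hI⟩ := hbd ρ hρ0 hρ
  rw [hT β]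
  have e0 : ε * ρ ^ (2 * 0) = ε := by norm_num
  refine le_of_le_of_eq ?_ e0.symm
  have hval : ∀ t : ℝ, β.1 (pt1 t) (fun _ => 0) = h (pt1 t) := by
    intro t
    rw [hβ _ (pt1_mem t)]
    show h (pt1 t) * (X1.kpow 0 (pt1 t) (fun _ => 0)) = h (pt1 t)
    have : X1.kpow 0 (pt1 t) (fun _ => 0) = 1 := rfl
    rw [this, mul_one]
  have hle : ∀ t ∈ Set.Icc (0 : ℝ) 1, β.1 (pt1 t) (fun _ => 0) ≤
      (Set.Icc a b).indicator (fun _ => (1 : ℝ)) t := by
    intro t ht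
    rw [hval t]
    by_cases h0 : h (pt1 t) = 0
    · rw [h0]
      exact Set.indicator_nonneg (fun _ _ => zero_le_one) _
    · obtain ⟨c, _, hc⟩ := hsupp _ (pt1_mem t) h0
      have := hI t ht (near ht hc)
      rw [Set.indicator_of_mem this]
      exact (hh _ (pt1_mem t)).2
  have hint : IntegrableOn ((Set.Icc a b).indicator (fun _ => (1 : ℝ))) (Set.Icc (0 : ℝ) 1) := by
    apply Integrable.indicator _ measurableSet_Icc
    exact integrableOn_const (by simp)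
  calc ∫ t in Set.Icc (0 : ℝ) 1, β.1 (pt1 t) (fun _ => 0)
      ≤ ∫ t in Set.Icc (0 : ℝ) 1, (Set.Icc a b).indicator (fun _ => (1 : ℝ)) t :=
        setIntegral_mono_on (integrable_val β) hint measurableSet_Icc hle
    _ = ∫ t in Set.Icc (0 : ℝ) 1 ∩ Set.Icc a b, (1 : ℝ) := by
        rw [setIntegral_indicator measurableSet_Icc]
    _ = volume.real (Set.Icc (0 : ℝ) 1 ∩ Set.Icc a b) := by simp
    _ ≤ volume.real (Set.Icc a b) := by
        exact measureReal_mono Set.inter_subset_right (measure_Icc_lt_top.ne)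
    _ = b - a := by
        rw [Real.volume_real_Icc, max_eq_left (by linarith)]
    _ ≤ ε := hab

end Pool.Agent.SIQ.H65
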